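import Mathlib
import Pool.Agent.H95.Cop.Defs
import Pool.Agent.H98.CE.All
import Pool.Agent.H98.CEU.All

/-!
# `MP_65efe8_pr`: the slope of the copolymer critical curve is `1/(1+α) + 2 α² + o(α²)`

The definitions of the model (law of the polymer, `Δ_n`, partition function, free energy, critical
curve) are in `Pool.Agent.H95.Cop.Defs`; they are those of the problem. They are well behaved under
the hypotheses of the theorem: the free energy exists for all `λ` and `h`
(`Pool.Agent.H95.Cop.exists_freeEnergy`), and for `λ > 0` the set `{h ≥ 0 : f(λ,h) > 0}` is bounded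
above (`Pool.Agent.H95.Cop.localized_bddAbove`).

As `α → 0` the gap `m_α - 1/(1+α)` is `2 α² + o(α²)`, uniformly in the inter-arrival law and in the
law of the charges.

Lower bound (helper98, `Pool.Agent.H98.CE`): let the charge drift exceed the annealed one by `d α²`,
`d < 2`. On cells of `ϑ/λ²` sites, stretches of the environment which are favourable for a long
excursion below the interface get a label, their strength in units of `η/α²`. Chains of stretches
with high labels, at distances up to `exp(η/α²)`, are the stretches of the next level; as the events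
are disjoint, the fractional moments of order `1/(1+α)` add up, and the densities of the labels
satisfy a nonlinear recursion. By generating functions the recursion blows up as soon as
`η ∑ U f(U) > 1/2` for the densities `f` of the first level, and this sum is `1/d` in the limit. After
the blow-up the chains of stretches have a functional so large that the free energy is positive.

Upper bound (helper99, `Pool.Agent.H99.CE`): let the drift exceed the annealed one by `d α²`, `d > 2`.
Fractional moments of one exponent `1/(1+α) + σ α²` at the scales `exp(j h/α²)`; the stretches of low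
weight are replaced by their means inside concave functions (Jensen), and a logarithmic moment of the
stretches, about `1/d` at the first scale, is a Lyapunov function: while it is below `1/2`, all
moments stay bounded through all scales.
-/

open MeasureTheory Filter Topology

namespace Pool.Agent.Results.MP_65efe8_pr.ExactConstant

open Pool.Agent.H95.Cop

/-- For every `ε > 0` there is `α₀ > 0` such that for all `0 < α < α₀`, every inter-arrival law `K`
with `K(n) ~ c_K n^{-(1+α)}` and every law `μ` of the charges with mean `0`, variance `1` and all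
exponential moments,
`1/(1+α) + (2-ε) α² ≤ h_c(λ)/λ ≤ 1/(1+α) + (2+ε) α²` for all small `λ > 0`. -/
theorem result (ε : ℝ) (hε : 0 < ε) : ∃ α₀ : ℝ, 0 < α₀ ∧ ∀ α : ℝ, 0 < α → α < α₀ →
    ∀ K : PMF ℕ, K 0 = 0 → ∀ cK : ℝ, 0 < cK →
    Tendsto (fun n : ℕ => (K n).toReal * (n : ℝ) ^ (1 + α)) atTop (𝓝 cK) →
    ∀ (μ : Measure ℝ) [IsProbabilityMeasure μ],
    (∀ t : ℝ, Integrable (fun z => Real.exp (t * z)) μ) → ∫ z, z ∂μ = 0 → ∫ z, z ^ 2 ∂μ = 1 →
    ∀ᶠ lam in 𝓝[>] (0 : ℝ),
      1 / (1 + α) + (2 - ε) * α ^ 2 ≤ criticalCurve K μ lam / lam ∧
      criticalCurve K μ lam / lam ≤ 1 / (1 + α) + (2 + ε) * α ^ 2 := by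
  have h1 := Pool.Agent.H98.CE.c_LOW ε hε
  obtain ⟨a, ha, h2⟩ := Pool.Agent.H98.CEU.c_UPR ε hε
  rw [eventually_nhdsWithin_iff, Metric.eventually_nhds_iff] at h1
  obtain ⟨b, hb, h1⟩ := h1
  refine ⟨min a b, lt_min ha hb, ?_⟩
  intro α hα0 hα K hK0 cK hcK hK μ _ hexp hmean hvar
  have hαa : α < a := lt_of_lt_of_le hα (min_le_left _ _)
  have hαb : α < b := lt_of_lt_of_le hα (min_le_right _ _)
  have hd : dist α 0 < b := by
    rw [Real.dist_eq, sub_zero, abs_of_pos hα0]
    exact hαb
  filter_upwards [h1 hd hα0 K hK0 cK hcK hK μ hexp hmean hvar,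
    h2 α hα0 hαa K hK0 cK hcK hK μ hexp hmean hvar] with lam g1 g2
  exact ⟨g1, g2⟩

end Pool.Agent.Results.MP_65efe8_pr.ExactConstant
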