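import Mathlib
import Pool.Agent.H95.Cop.Defs
import Pool.Agent.H98.EX.Fin2

/-!
# `MP_65efe8_pr`: the exact constant of the slope of the copolymer critical curve as `α → 1`

The definitions of the model (law of the polymer, `Δ_n`, partition function, free energy, critical
curve) are in `Pool.Agent.H95.Cop.Defs`; they are those of the problem. They are well behaved under
the hypotheses of the theorem: the free energy exists for all `λ` and `h`
(`Pool.Agent.H95.Cop.exists_freeEnergy`), and for `λ > 0` the set `{h ≥ 0 : f(λ,h) > 0}` is bounded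
above (`Pool.Agent.H95.Cop.localized_bddAbove`).

Write `δ = 1 - α`, `x = δ^(1/4)` and `h/λ = 3/4 + κ x`. A cell has `k = ϑ/λ²` sites, `ϑ` a small
constant. A stretch of the polymer between two cells all of whose excursions have at most `k` sites
has a weight close to a constant times `exp S`, `S` being the increment of a random walk whose steps
belong to the cells; its moment of order `u` per cell is `exp (ϑ (u²/2 - u (1/4 + κ x)))`. The moment
of order `1/2` of the sum over all such stretches, restricted to the stretches of weight about `e^L`,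
is per cell the density `(√2/(2π)) e^(-2κxL) dL`: here the exact value `√(ϑ/(8π))` (as `ϑ → 0`) of the
moment of order `-1/2` of the two-sided exponential sums at an end of a stretch is used. Excursions
above the interface of more than `k` sites connect such stretches, at the cost `(δ/4) D^(-(1+α))` for
`D` cells.

Both halves follow the growth of chains of stretches through the scales. Lower bound: levels of boxes
labelled by the size of their functional; the recursion blows up if `√2/(32πκ²) > 1/2`. Upper bound:
fractional moments of an order slightly above `1/(1+α)` of the sums over stretches between the boxes of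
a scale, together with a logarithmic moment; they stay bounded if the same quantity is below `1/2`. The
critical value is `κ = (8 √2 π)^(-1/2)`.
-/

open MeasureTheory Filter Topology

namespace Pool.Agent.Results.MP_65efe8_pr.ExactNearOne

open Pool.Agent.H95.Cop

/-- `(m_α - 3/4)/(1-α)^{1/4} → 1/√(8√2 π)` as `α → 1`, `α < 1`: for every `ε > 0` there is `α₀ < 1`
such that for `α₀ < α < 1`, every inter-arrival law `K` with `K(n) ~ c_K n^{-(1+α)}` and every law `μ`
of the charges with mean `0`, variance `1` and all exponential moments,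
`|(h_c(λ)/λ - 3/4)/(1-α)^{1/4} - 1/√(8√2 π)| ≤ ε` for all small `λ > 0`, and the same with the limit
`m` of `h_c(λ)/λ` in place of `h_c(λ)/λ`. -/
theorem result :
    ∀ ε : ℝ, 0 < ε → ∃ α₀ : ℝ, α₀ < 1 ∧ ∀ α : ℝ, α₀ < α → α < 1 → ∀ K : PMF ℕ, K 0 = 0 →
      ∀ cK : ℝ, 0 < cK →
      Tendsto (fun n : ℕ => (K n).toReal * (n : ℝ) ^ (1 + α)) atTop (𝓝 cK) →
      ∀ (μ : Measure ℝ) [IsProbabilityMeasure μ],
      (∀ t : ℝ, Integrable (fun z => Real.exp (t * z)) μ) → ∫ z, z ∂μ = 0 →
      ∫ z, z ^ 2 ∂μ = 1 →
      (∀ᶠ lam in 𝓝[>] (0 : ℝ),
        |(criticalCurve K μ lam / lam - 3 / 4) / (1 - α) ^ (1 / 4 : ℝ) -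
          1 / Real.sqrt (8 * Real.sqrt 2 * Real.pi)| ≤ ε) ∧
      ∀ m : ℝ, Tendsto (fun lam => criticalCurve K μ lam / lam) (𝓝[>] 0) (𝓝 m) →
        |(m - 3 / 4) / (1 - α) ^ (1 / 4 : ℝ) - 1 / Real.sqrt (8 * Real.sqrt 2 * Real.pi)| ≤ ε :=
  Pool.Agent.H98.EX.near_one

end Pool.Agent.Results.MP_65efe8_pr.ExactNearOne
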