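import Mathlib
import Pool.Agent.H95.Cop.Defs
import Pool.Agent.H55.CG.FIN
import Pool.Agent.H55.CG.All

/-!
# `MP_65efe8_pr`: the gap between the slope of the copolymer critical curve and `1/(1+α)`

The definitions of the model (law of the polymer, `Δ_n`, partition function, free energy, critical
curve) are in `Pool.Agent.H95.Cop.Defs`; they are those of the problem. They are well behaved under
the hypotheses of the theorem: the free energy exists for all `λ` and `h`
(`Pool.Agent.H95.Cop.exists_freeEnergy`), and for `λ > 0` the set `{h ≥ 0 : f(λ,h) > 0}` is bounded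
above (`Pool.Agent.H95.Cop.localized_bddAbove`).

For every `α ∈ (0,1)`, `liminf h_c(λ)/λ ≥ 1/(1+α) + α² (1-α)² / 2^81`. So the gap
`m_α - 1/(1+α)` is at least of order `α²` as `α → 0`, which is its exact order by the upper bound of
`GapUpperBound`. The proof uses rare stretches of the
environment in which favourable stretches of two types alternate: long ones for excursions above
the interface (of lengths from `2q` to `8^(q-1)` cells) and shorter ones for excursions below it (of
`q` to `2q-1` cells), `q` of order `1/α²`. The favourable events of different patterns of lengths are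
disjoint, so that the fractional moment of order `1/(1+α)` of the sum is the sum of the fractional
moments.
-/

open MeasureTheory Filter Topology

namespace Pool.Agent.Results.MP_65efe8_pr.GapOrder

open Pool.Agent.H95.Cop

/-- For every `α ∈ (0,1)`, every inter-arrival law `K` with `K(n) ~ c_K n^{-(1+α)}` and every law `μ`
of the charges with mean `0`, variance `1` and all exponential moments,
`h_c(λ)/λ ≥ 1/(1+α) + α² (1-α)² / 2^81` for all small `λ > 0`. -/
theorem result (α : ℝ) (hα : 0 < α) (hα1 : α < 1)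
    (K : PMF ℕ) (hK0 : K 0 = 0) (cK : ℝ) (hcK : 0 < cK)
    (hK : Tendsto (fun n : ℕ => (K n).toReal * (n : ℝ) ^ (1 + α)) atTop (𝓝 cK))
    (μ : Measure ℝ) [IsProbabilityMeasure μ]
    (hexp : ∀ t : ℝ, Integrable (fun z => Real.exp (t * z)) μ)
    (hmean : ∫ z, z ∂μ = 0) (hvar : ∫ z, z ^ 2 ∂μ = 1) :
    ∀ᶠ lam in 𝓝[>] (0 : ℝ),
      1 / (1 + α) + α ^ 2 * (1 - α) ^ 2 / 2 ^ 81 ≤ criticalCurve K μ lam / lam :=
  Pool.Agent.H55.CG.pf_FIN Pool.Agent.H55.CG.c_MAP Pool.Agent.H55.CG.c_RSL
    Pool.Agent.H55.CG.c_YXB Pool.Agent.H55.CG.c_YPW Pool.Agent.H55.CG.c_GRP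
    Pool.Agent.H55.CG.c_GR0 Pool.Agent.H55.CG.c_PRD Pool.Agent.H55.CG.c_YLO
    Pool.Agent.H55.CG.c_YUP Pool.Agent.H55.CG.c_LVL Pool.Agent.H55.CG.c_MSL
    Pool.Agent.H55.CG.c_GGS Pool.Agent.H55.CG.c_PTM Pool.Agent.H55.CG.c_SUM
    Pool.Agent.H55.CG.c_PIG Pool.Agent.H55.CG.c_SNU Pool.Agent.H55.CG.c_KSE
    Pool.Agent.H55.CG.c_KLO Pool.Agent.H55.CG.c_VVL Pool.Agent.H55.CG.c_MOM
    α hα hα1 K hK0 cK hcK hK μ hexp hmean hvar

end Pool.Agent.Results.MP_65efe8_pr.GapOrder
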