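import Mathlib
import Pool.Agent.H95.Cop.Defs
import Pool.Agent.H98.EX.Fin2

/-!
# `MP_65efe8_pr`: the copolymer critical curve at `α = 1`, with its exact second term

The definitions of the model are in `Pool.Agent.H95.Cop.Defs`; they are those of the problem (see also
the hand-in `ExactNearOne`). For `α = 1` the mean of the excursions of at most `k` sites grows like
`c_K log k`, and the ratio of the mean of one long excursion to it, `δ = 1/log k` with `k = ϑ/λ²` sites
in a cell, plays the role of `1 - α`: excursions of more than `k` sites cost `(δ/4) D^(-2)` for `D`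
cells. The critical value of `(h/λ - 3/4) δ^(-1/4)` is `(8 √2 π)^(-1/2)`, and `log k ~ 2 log (1/λ)`.
-/

open MeasureTheory Filter Topology

namespace Pool.Agent.Results.MP_65efe8_pr.SlopeAtOne

open Pool.Agent.H95.Cop

/-- For `α = 1`, every inter-arrival law `K` with `K(n) ~ c_K n^{-2}` and every law `μ` of the charges
with mean `0`, variance `1` and all exponential moments: `h_c(λ)/λ → 3/4`, and
`(h_c(λ)/λ - 3/4) (log (1/λ))^{1/4} → 1/(4√π)` as `λ → 0`. -/
theorem result :
    ∀ K : PMF ℕ, K 0 = 0 → ∀ cK : ℝ, 0 < cK →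
      Tendsto (fun n : ℕ => (K n).toReal * (n : ℝ) ^ 2) atTop (𝓝 cK) →
      ∀ (μ : Measure ℝ) [IsProbabilityMeasure μ],
      (∀ t : ℝ, Integrable (fun z => Real.exp (t * z)) μ) → ∫ z, z ∂μ = 0 →
      ∫ z, z ^ 2 ∂μ = 1 →
      Tendsto (fun lam => criticalCurve K μ lam / lam) (𝓝[>] 0) (𝓝 (3 / 4)) ∧
      Tendsto (fun lam => (criticalCurve K μ lam / lam - 3 / 4) *
        Real.log (1 / lam) ^ (1 / 4 : ℝ)) (𝓝[>] 0) (𝓝 (1 / (4 * Real.sqrt Real.pi))) :=
  Pool.Agent.H98.EX.at_one

end Pool.Agent.Results.MP_65efe8_pr.SlopeAtOne
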